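import Pool.Agent.Lib.MP_732f67_ag.G.EqA
import Pool.Agent.Lib.MP_732f67_ag.G.EtD
import Pool.Agent.Lib.MP_732f67_ag.G.EtE
import Pool.Agent.Lib.MP_732f67_ag.G.AtEx

/-!
The decomposition of weight `2 n` on `(ℙ^1)^n`.
-/

namespace Pool.Agent.KM

variable {L : Type} [Field L] [Algebra ℂ L] {n : ℕ}

/-- the points of `(ℙ^1)^n` -/
def P1 (x : Fin n → L) : Set (Subalgebra ℂ L) :=
  Pts (Submodule.span ℂ (Set.range fun s : Finset (Fin n) => ∏ i ∈ s, x i))

/-- the coordinates of the chart `T` -/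
noncomputable def yT (x : Fin n → L) (T : Finset (Fin n)) (i : Fin n) : L :=
  if i ∈ T then (x i)⁻¹ else x i

/-- the ring of the chart `T` -/
noncomputable def CT (x : Fin n → L) (T : Finset (Fin n)) : Subalgebra ℂ L :=
  Algebra.adjoin ℂ (Set.range (yT x T))

/-- the local equation of the divisor `x i = ∞` -/
noncomputable def MP (x : Fin n → L) (h0 : ∀ i, x i ≠ 0) (i : Fin n) (O : Subalgebra ℂ L) : Lˣ :=
  open Classical in if x i ∈ O then 1 else (Units.mk0 (x i) (h0 i))⁻¹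

variable {x : Fin n → L}

open scoped Pointwise in
theorem sa_span (x : Fin n → L) :
    Submodule.span ℂ (Set.range fun s : Finset (Fin n) => ∏ i ∈ s, x i) =
      ∏ j, Submodule.span ℂ {(1 : L), x j} := by
  rw [Submodule.prod_span, eqa_prod_pair]

theorem sa_mem (T : Finset (Fin n)) : ∏ i ∈ T, x i ∈
    Submodule.span ℂ (Set.range fun s : Finset (Fin n) => ∏ i ∈ s, x i) :=
  Submodule.subset_span ⟨T, rfl⟩

theorem sa_ne (h0 : ∀ i, x i ≠ 0) (T : Finset (Fin n)) : ∏ i ∈ T, x i ≠ 0 :=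
  Finset.prod_ne_zero_iff.2 fun i _ => h0 i

/-- the chart `T` -/
theorem sa_cht (h0 : ∀ i, x i ≠ 0) (T : Finset (Fin n)) :
    cht (Submodule.span ℂ (Set.range fun s : Finset (Fin n) => ∏ i ∈ s, x i)) (∏ i ∈ T, x i) =
      CT x T := by
  classical
  have h1 := cht_prod (k := ℂ) (s₀ := fun _ : Fin n => (1 : L)) (s₁ := x) (N := fun _ => 1)
    (fun _ => le_rfl) (t := fun i => if i ∈ T then x i else 1)
    (fun i => by
      by_cases h : i ∈ T
      · exact Or.inr (if_pos h)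
      · exact Or.inl (if_neg h))
    (fun i => by
      change (if i ∈ T then x i else 1) ≠ 0
      by_cases h : i ∈ T
      · rw [if_pos h]
        exact h0 i
      · rw [if_neg h]
        exact one_ne_zero)
  simp only [pow_one] at h1
  rw [← sa_span, Finset.prod_ite_mem_eq T x] at h1
  rw [h1, CT]
  apply le_antisymm
  · refine Algebra.adjoin_le ?_
    rintro a ⟨i, hi⟩
    have hy : yT x T i ∈ Algebra.adjoin ℂ (Set.range (yT x T)) := Algebra.subset_adjoin ⟨i, rfl⟩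
    by_cases h : i ∈ T
    · rw [if_pos h, div_self (h0 i), one_div] at hi
      rw [yT, if_pos h] at hy
      rcases hi with hi | hi
      · rw [hi]
        exact hy
      · rw [hi]
        exact Subalgebra.one_mem _
    · rw [if_neg h, div_one, div_one] at hi
      rw [yT, if_neg h] at hy
      rcases hi with hi | hi
      · rw [hi]
        exact Subalgebra.one_mem _
      · rw [hi]
        exact hy
  · refine Algebra.adjoin_le ?_
    rintro _ ⟨i, rfl⟩
    refine Algebra.subset_adjoin ⟨i, ?_⟩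
    rw [yT]
    by_cases h : i ∈ T
    · rw [if_pos h, if_pos h, one_div]
      exact Or.inl rfl
    · rw [if_neg h, if_neg h, div_one, div_one]
      exact Or.inr rfl

/-- the elements of one chart are fractions of the elements of another one -/
theorem sa_frac (h0 : ∀ i, x i ≠ 0) (T T' : Finset (Fin n)) {z : L} (hz : z ∈ CT x T') :
    ∃ a ∈ CT x T, ∃ b ∈ CT x T, b ≠ 0 ∧ z = a / b := by
  rw [CT] at hz
  induction hz using Algebra.adjoin_induction with
  | mem z hz =>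
    obtain ⟨i, rfl⟩ := hz
    have hy : yT x T i ∈ CT x T := Algebra.subset_adjoin ⟨i, rfl⟩
    have hy0 : yT x T i ≠ 0 := by
      rw [yT]
      split_ifs
      · exact inv_ne_zero (h0 i)
      · exact h0 i
    by_cases h : yT x T' i = yT x T i
    · exact ⟨_, hy, 1, Subalgebra.one_mem _, one_ne_zero, by rw [h, div_one]⟩
    · refine ⟨1, Subalgebra.one_mem _, _, hy, hy0, ?_⟩
      by_cases h1 : i ∈ T'
      · by_cases h2 : i ∈ T
        · exact absurd (by rw [yT, yT, if_pos h1, if_pos h2]) h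
        · rw [yT, yT, if_pos h1, if_neg h2, one_div]
      · by_cases h2 : i ∈ T
        · rw [yT, yT, if_neg h1, if_pos h2, one_div, inv_inv]
        · exact absurd (by rw [yT, yT, if_neg h1, if_neg h2]) h
  | algebraMap c => exact ⟨_, Subalgebra.algebraMap_mem _ c, 1, Subalgebra.one_mem _,
      one_ne_zero, by rw [div_one]⟩
  | add u v _ _ hu hv =>
    obtain ⟨a, ha, b, hb, hb0, rfl⟩ := hu
    obtain ⟨c, hc, d, hd, hd0, rfl⟩ := hv
    exact ⟨a * d + b * c, Subalgebra.add_mem _ (Subalgebra.mul_mem _ ha hd)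
      (Subalgebra.mul_mem _ hb hc), b * d, Subalgebra.mul_mem _ hb hd, mul_ne_zero hb0 hd0,
      div_add_div _ _ hb0 hd0⟩
  | mul u v _ _ hu hv =>
    obtain ⟨a, ha, b, hb, hb0, rfl⟩ := hu
    obtain ⟨c, hc, d, hd, hd0, rfl⟩ := hv
    exact ⟨a * c, Subalgebra.mul_mem _ ha hc, b * d, Subalgebra.mul_mem _ hb hd,
      mul_ne_zero hb0 hd0, div_mul_div_comm _ _ _ _⟩

/-- PROOF. `V = ∏ i, span {1, x i}` (`Submodule.prod_span`, `eqa_prod_pair`). `→`: `exists_gens` with
`s₀ = 1`, `s₁ = x`, `N = 1` gives `t i ∈ {1, x i}`; `T = {i : t i = x i}`; `cht_prod` for `N = 1`: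
`cht V (∏ t i) = adjoin {1 / t i, x i / t i} = CT x T`, contained in `O`; `Pts.locAt`.
`←`: `cht V (∏ i ∈ T, x i) = CT x T`. -/
theorem mem_P1 (h0 : ∀ i, x i ≠ 0) {O : Subalgebra ℂ L} :
    O ∈ P1 x ↔ ∃ T, LocAt (CT x T) O := by
  constructor
  · intro hO
    have hO' : O ∈ Pts (∏ j, (Submodule.span ℂ {(1 : L), x j}) ^ 1) := by
      simp only [pow_one]
      rw [← sa_span]
      exact hO
    obtain ⟨t, ht⟩ := exists_gens (fun _ => one_ne_zero) h0 (fun _ => le_rfl) hO'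
    obtain ⟨T, hT⟩ : ∃ T : Finset (Fin n), ∀ i, t i = if i ∈ T then x i else 1 := by
      classical
      refine ⟨Finset.univ.filter fun i => t i = x i, fun i => ?_⟩
      by_cases h : t i = x i
      · rw [if_pos (Finset.mem_filter.2 ⟨Finset.mem_univ i, h⟩), h]
      · have h2 : i ∉ Finset.univ.filter fun i => t i = x i := fun h1 =>
          h (Finset.mem_filter.1 h1).2
        rw [if_neg h2]
        exact (ht i).1.resolve_right h
    refine ⟨T, ?_⟩
    rw [← sa_cht h0 T]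
    refine Pts.locAt hO (sa_mem T) (sa_ne h0 T) ?_
    rw [sa_cht h0 T]
    refine Algebra.adjoin_le ?_
    rintro _ ⟨i, rfl⟩
    have h1 := (ht i).2
    rw [hT i] at h1
    rw [yT]
    by_cases h : i ∈ T
    · rw [if_pos h]
      rw [if_pos h, one_div] at h1
      exact h1.1
    · rw [if_neg h]
      rw [if_neg h, div_one, div_one] at h1
      exact h1.2
  · rintro ⟨T, hT⟩
    refine ⟨∏ i ∈ T, x i, sa_mem T, sa_ne h0 T, ?_⟩
    rw [sa_cht h0 T]
    exact hT

theorem P1_or (h0 : ∀ i, x i ≠ 0) {O : Subalgebra ℂ L} (hO : O ∈ P1 x) (i : Fin n) :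
    x i ∈ O ∨ (x i)⁻¹ ∈ O := by
  obtain ⟨T, hT⟩ := (mem_P1 h0).1 hO
  have h1 : yT x T i ∈ O := hT.le (Algebra.subset_adjoin ⟨i, rfl⟩)
  rw [yT] at h1
  by_cases h : i ∈ T
  · rw [if_pos h] at h1
    exact Or.inr h1
  · rw [if_neg h] at h1
    exact Or.inl h1

/-- PROOF. `O = L` is a point of a projective variety (`IsProj.nonempty` or the charts have `L` as field
of fractions), `⊤ ∈ P1 x`: `L` is the field of fractions of some `CT x T`, and
`Frac (CT x T) = Frac (CT x T')`. -/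
theorem fracEq_CT (hx : AlgebraicIndependent ℂ x) (hX : IsProj (P1 x)) (T : Finset (Fin n)) :
    FracEq (CT x T) := by
  have h0 : ∀ i, x i ≠ 0 := fun i => hx.ne_zero i
  obtain ⟨O, hO⟩ := hX.nonempty
  obtain ⟨T', hT'⟩ := (mem_P1 h0).1 hO
  have h1 := nb_frac hT' (hX.fracEq hO)
  intro z
  obtain ⟨b, b', hb', rfl⟩ := h1 z
  obtain ⟨a, ha, c, hc, hc0, e1⟩ := sa_frac h0 T T' b.2
  obtain ⟨a', ha', c', hc', hc0', e2⟩ := sa_frac h0 T T' b'.2
  rw [e2] at hb'
  have ha0 : a' ≠ 0 := fun h => hb' (by rw [h, zero_div])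
  refine ⟨⟨a * c', Subalgebra.mul_mem _ ha hc'⟩, ⟨c * a', Subalgebra.mul_mem _ hc ha'⟩,
    mul_ne_zero hc0 ha0, ?_⟩
  rw [e1, e2, div_div_div_eq]

/-- the chart is an affine space.

PROOF. `y i = x i` or `(x i)⁻¹` are algebraically independent (`L` is algebraic over `ℂ(y)`, a
transcendence basis by the number of elements, or directly); `f = Y` (`Polynomial.X`), `y = 0`,
`f' = 1`, `u = 1`. -/
theorem isCh_CT (hx : AlgebraicIndependent ℂ x) (hf : ∀ T, FracEq (CT x T)) (T : Finset (Fin n)) :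
    IsCh (CT x T) (yT x T) 0 1 := by
  have halg : Algebra.IsAlgebraic (Algebra.adjoin ℂ (Set.range (yT x T))) L := by
    refine ⟨fun a => ?_⟩
    obtain ⟨b, c, hc, rfl⟩ := hf T a
    have hb : IsAlgebraic (Algebra.adjoin ℂ (Set.range (yT x T))) (b : L) :=
      isAlgebraic_algebraMap (A := L) (⟨b, b.2⟩ : Algebra.adjoin ℂ (Set.range (yT x T)))
    have hc : IsAlgebraic (Algebra.adjoin ℂ (Set.range (yT x T))) (c : L) :=
      isAlgebraic_algebraMap (A := L) (⟨c, c.2⟩ : Algebra.adjoin ℂ (Set.range (yT x T)))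
    rw [div_eq_mul_inv]
    exact hb.mul hc.inv
  have htb : IsTranscendenceBasis ℂ (yT x T) :=
    Algebra.IsAlgebraic.isTranscendenceBasis_of_le_trdeg_of_finite ℂ _ hx.cardinalMk_le_trdeg
  have hle : Algebra.adjoin ℂ (Set.range (yT x T)) ≤
      Algebra.adjoin ℂ (Set.range (yT x T) ∪ {0}) := Algebra.adjoin_mono Set.subset_union_left
  refine ⟨htb, ⟨Polynomial.X, Polynomial.monic_X, Polynomial.irreducible_X, ?_, ?_, ?_⟩,
    one_ne_zero, ?_, ?_, fun a => ?_⟩
  · unfold ev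
    rw [Polynomial.eval₂_X]
  · unfold ev
    rw [Polynomial.derivative_X, Polynomial.eval₂_one]
    exact one_ne_zero
  · unfold ev
    rw [Polynomial.derivative_X, Polynomial.eval₂_one, inv_one]
    exact one_mem _
  · rw [inv_one]
    exact one_mem _
  · unfold CT
    apply le_antisymm
    · exact Algebra.adjoin_mono Set.subset_union_left
    · rw [Algebra.adjoin_le_iff]
      rintro a (ha | rfl | rfl)
      · exact Algebra.subset_adjoin ha
      · exact zero_mem _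
      · exact one_mem _
  · obtain ⟨b, c, hc, rfl⟩ := hf T a
    exact ⟨b, hle b.2, c, hle c.2, hc, rfl⟩

/-- PROOF. Case `x i ∈ O`: `S = {x i}`; case `x i ∉ O`: `S = {(x i)⁻¹}`, and at a point `O'` with
`x i, (x i)⁻¹ ∈ O'` the quotient is a unit. -/
theorem MP_car (h0 : ∀ i, x i ≠ 0) (i : Fin n) : IsCar (P1 x) (MP x h0 i) := by
  intro O hO
  by_cases h : x i ∈ O
  · refine ⟨{x i}, fun s hs => ?_, fun O' _ hS => ?_⟩
    · rw [Finset.mem_singleton.1 hs]
      exact h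
    · have h' : x i ∈ O' := hS _ (Finset.mem_singleton_self _)
      unfold MP
      rw [if_pos h, if_pos h', div_one]
      exact ⟨by simp, by simp, by simp⟩
  · have hi : (x i)⁻¹ ∈ O := (P1_or h0 hO i).resolve_left h
    refine ⟨{(x i)⁻¹}, fun s hs => ?_, fun O' _ hS => ?_⟩
    · rw [Finset.mem_singleton.1 hs]
      exact hi
    · have h' : (x i)⁻¹ ∈ O' := hS _ (Finset.mem_singleton_self _)
      unfold MP
      by_cases h1 : x i ∈ O'
      · rw [if_neg h, if_pos h1, div_one]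
        refine ⟨Units.ne_zero _, by simpa using h', by simpa using h1⟩
      · rw [if_neg h, if_neg h1, div_self']
        exact ⟨by simp, by simp, by simp⟩

theorem MP_mem (h0 : ∀ i, x i ≠ 0) {O : Subalgebra ℂ L} (hO : O ∈ P1 x) (i : Fin n) :
    (MP x h0 i O : L) ∈ O ∧ x i * (MP x h0 i O : L) ∈ O := by
  unfold MP
  by_cases h : x i ∈ O
  · rw [if_pos h]
    exact ⟨by simp, by simpa using h⟩
  · rw [if_neg h]
    have hi : (x i)⁻¹ ∈ O := (P1_or h0 hO i).resolve_left h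
    refine ⟨by simpa using hi, ?_⟩
    have h1 : x i * ((Units.mk0 (x i) (h0 i))⁻¹ : Lˣ) = 1 := by
      rw [Units.val_inv_eq_inv_val, Units.val_mk0, mul_inv_cancel₀ (h0 i)]
    rw [h1]
    exact one_mem O

/-- PROOF. The sections `1` and `(x i) ^ m`. -/
theorem MP_free (h0 : ∀ i, x i ≠ 0) (i : Fin n) (m : ℕ) : Free (P1 x) (MP x h0 i ^ m) := by
  intro O hO
  by_cases h : x i ∈ O
  · refine ⟨1, fun O' hO' => ?_, ?_⟩
    · rw [one_mul, Pi.pow_apply, Units.val_pow_eq_pow_val]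
      exact pow_mem (MP_mem h0 hO' i).1 m
    · have h1 : MP x h0 i O = 1 := by
        unfold MP
        exact if_pos h
      rw [Pi.pow_apply, h1, one_pow, Units.val_one, mul_one]
      exact ⟨one_ne_zero, one_mem O, by rw [inv_one]; exact one_mem O⟩
  · refine ⟨x i ^ m, fun O' hO' => ?_, ?_⟩
    · rw [Pi.pow_apply, Units.val_pow_eq_pow_val, ← mul_pow]
      exact pow_mem (MP_mem h0 hO' i).2 m
    · have h1 : (MP x h0 i O : L) = (x i)⁻¹ := by
        unfold MP
        rw [if_neg h, Units.val_inv_eq_inv_val, Units.val_mk0]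
      rw [Pi.pow_apply, Units.val_pow_eq_pow_val, h1, ← mul_pow, mul_inv_cancel₀ (h0 i), one_pow]
      exact ⟨one_ne_zero, one_mem O, by rw [inv_one]; exact one_mem O⟩

/-- the regular functions on a projective variety are constant.

PROOF. `f` is contained in every valuation ring which contains `ℂ` (`IsProj.exists_center`), so it is
integral over `ℂ` (otherwise `f⁻¹` is not a unit of `ℂ[f⁻¹]` and some valuation ring which dominates
a localization at a maximal ideal containing `f⁻¹` does not contain `f`; see `KM/` for a similar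
lemma), and `ℂ` is algebraically closed. -/
theorem IsProj.const {X : Set (Subalgebra ℂ L)} (hX : IsProj X) {f : L} (hf : ∀ O ∈ X, f ∈ O) :
    ∃ c : ℂ, f = algebraMap ℂ L c := by
  have h1 : f ∈ (⨅ V : {V : ValuationSubring L // (Set.range (algebraMap ℂ L)) ⊆ V.toSubring},
      V.1.toSubring) := by
    rw [Subring.mem_iInf]
    rintro ⟨O, hO⟩
    obtain ⟨Q, hQ, h2, -⟩ := hX.exists_center O fun c => hO ⟨c, rfl⟩
    exact h2 f (hf Q hQ)
  rw [iInf_valuationSubring_superset] at h1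
  have h2 : IsIntegral (Subring.closure (Set.range (algebraMap ℂ L))) f := h1
  have h3 : Subring.closure (Set.range (algebraMap ℂ L)) = (algebraMap ℂ L).range :=
    Subring.closure_eq (algebraMap ℂ L).range
  rw [h3] at h2
  obtain ⟨q, hq, hq0⟩ := h2
  obtain ⟨q', rfl⟩ := Polynomial.map_surjective (algebraMap ℂ L).rangeRestrict
    (algebraMap ℂ L).rangeRestrict_surjective q
  have h4 : IsAlgebraic ℂ f := by
    refine ⟨q', ?_, ?_⟩
    · rintro rfl
      rw [Polynomial.map_zero] at hq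
      exact hq.ne_zero rfl
    · rw [Polynomial.eval₂_map] at hq0
      exact hq0
  obtain ⟨c, hc⟩ := big_const (fun h => h h4)
  exact ⟨c, hc.symm⟩

/-- PROOF. If `u * MP ^ m` is a unit everywhere, `m ≥ 1`, then the sections `1` and `(x i) ^ m` of `MP ^ m`
are constant multiples of `u` (`IsProj.const` for `1 / u` and `(x i) ^ m / u`), so `(x i) ^ m` is constant:
contradiction to the algebraic independence. -/
theorem MP_ne (hx : AlgebraicIndependent ℂ x) (hX : IsProj (P1 x)) (h0 : ∀ i, x i ≠ 0) (i : Fin n) :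
    ¬ Triv (P1 x) (MP x h0 i) := by
  rintro ⟨m, hm, u, hu⟩
  have h1 : ∀ O ∈ P1 x, (u : L)⁻¹ ∈ O ∧ x i ^ m * (u : L)⁻¹ ∈ O := by
    intro O hO
    obtain ⟨-, -, h2⟩ := hu O hO
    rw [Units.val_mul, Units.val_pow_eq_pow_val] at h2
    have h3 : (MP x h0 i O : L) ≠ 0 := Units.ne_zero _
    have h4 : (u : L) ≠ 0 := u.ne_zero
    have h5 : (u : L)⁻¹ = ((u : L) * (MP x h0 i O : L) ^ m)⁻¹ * (MP x h0 i O : L) ^ m := by
      field_simp
    constructor
    · rw [h5]
      exact mul_mem h2 (pow_mem (MP_mem h0 hO i).1 m)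
    · have h6 : x i ^ m * (u : L)⁻¹ =
          ((u : L) * (MP x h0 i O : L) ^ m)⁻¹ * (x i * (MP x h0 i O : L)) ^ m := by
        rw [mul_pow]
        field_simp
      rw [h6]
      exact mul_mem h2 (pow_mem (MP_mem h0 hO i).2 m)
  obtain ⟨c, hc⟩ := hX.const fun O hO => (h1 O hO).1
  obtain ⟨d, hd⟩ := hX.const fun O hO => (h1 O hO).2
  have h2 : IsAlgebraic ℂ (x i ^ m) := by
    have h3 : x i ^ m = algebraMap ℂ L (d * c⁻¹) := by
      rw [map_mul, map_inv₀, ← hd, ← hc, inv_inv]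
      have := u.ne_zero
      field_simp
    rw [h3]
    exact isAlgebraic_algebraMap _
  exact hx.transcendental i (h2.of_pow hm)

/-- PROOF. `D i (x j)⁻¹ = - (x j) ^ (-2) * D i (x j)`; the columns in `T` are multiplied by
`- (x j) ^ (-2)` (`Matrix.det_mul_column` or `Matrix.det_mul_row`). -/
theorem det_yT (h0 : ∀ i, x i ≠ 0) (D : Fin n → Derivation ℂ L L) (T : Finset (Fin n)) :
    (Matrix.of fun i l => D i (yT x T l)).det =
      (Matrix.of fun i l => D i (x l)).det * ∏ l ∈ T, -(x l ^ 2)⁻¹ := by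
  have h1 : (Matrix.of fun i l => D i (yT x T l)) = Matrix.of fun i l =>
      (if l ∈ T then -(x l ^ 2)⁻¹ else 1) * (Matrix.of fun i l => D i (x l)) i l := by
    ext i l
    rw [Matrix.of_apply, Matrix.of_apply, Matrix.of_apply]
    unfold yT
    split_ifs with h
    · rw [Derivation.leibniz_inv, smul_eq_mul, inv_pow]
    · rw [one_mul]
  rw [h1, Matrix.det_mul_row, mul_comm]
  congr 1
  rw [Finset.prod_ite_mem, Finset.univ_inter]

/-- the local equations of the divisor of the form in the chart `T` -/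
theorem p1_prod (h0 : ∀ i, x i ≠ 0) {O : Subalgebra ℂ L} {T : Finset (Fin n)}
    (hT : LocAt (CT x T) O) :
    ∃ w : L, Un O w ∧ ∏ l ∈ T, -(x l ^ 2)⁻¹ = w * ∏ l, (MP x h0 l O : L) ^ 2 := by
  classical
  have hy : ∀ l, yT x T l ∈ O := fun l => hT.le (Algebra.subset_adjoin ⟨l, rfl⟩)
  have key : ∀ l, ∃ w : L, Un O w ∧
      (if l ∈ T then -(x l ^ 2)⁻¹ else 1) = w * (MP x h0 l O : L) ^ 2 := by
    intro l
    have hyl := hy l
    unfold yT at hyl
    by_cases hl : l ∈ T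
    · rw [if_pos hl] at hyl ⊢
      by_cases hxl : x l ∈ O
      · refine ⟨-(x l ^ 2)⁻¹, ?_, ?_⟩
        · have h1 : Un O (x l) := ⟨h0 l, hxl, hyl⟩
          have h2 := (h1.pow 2).inv
          refine ⟨neg_ne_zero.2 h2.1, O.neg_mem h2.2.1, ?_⟩
          rw [inv_neg]
          exact O.neg_mem h2.2.2
        · have h1 : MP x h0 l O = 1 := if_pos hxl
          rw [h1, Units.val_one, one_pow, mul_one]
      · refine ⟨-1, ⟨neg_ne_zero.2 one_ne_zero, O.neg_mem O.one_mem, ?_⟩, ?_⟩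
        · rw [inv_neg, inv_one]
          exact O.neg_mem O.one_mem
        · have h1 : MP x h0 l O = (Units.mk0 (x l) (h0 l))⁻¹ := if_neg hxl
          rw [h1, Units.val_inv_eq_inv_val, Units.val_mk0, inv_pow, neg_one_mul]
    · rw [if_neg hl] at hyl ⊢
      refine ⟨1, Un.one O, ?_⟩
      have h1 : MP x h0 l O = 1 := if_pos hyl
      rw [h1, Units.val_one, one_pow, mul_one]
  choose w hw hwe using key
  refine ⟨∏ l, w l, Un.prod _ fun l _ => hw l, ?_⟩
  rw [← Finset.prod_mul_distrib, ← Finset.prod_congr rfl fun l _ => hwe l,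
    Finset.prod_ite_mem, Finset.univ_inter]

/-- the regular forms at a point.

PROOF. `mem_P1`, `IsCh.lat_eq`, `det_yT`; for `l ∈ T` the quotient of `(x l) ^ (-2)` and `MP l O ^ 2` is a
unit of `O` (`(x l)⁻¹ ∈ O`), and for `l ∉ T` `MP l O = 1`. -/
theorem P1_lat (hx : AlgebraicIndependent ℂ x) (hX : IsProj (P1 x)) (h0 : ∀ i, x i ≠ 0)
    (D : Fin n → Derivation ℂ L L) (hD : (Matrix.of fun i l => D i (x l)).det ≠ 0)
    {O : Subalgebra ℂ L} (hO : O ∈ P1 x) (f : L) : f ∈ lat D O ↔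
      f / ((Matrix.of fun i l => D i (x l)).det * ∏ l, (MP x h0 l O : L) ^ 2) ∈ O := by
  obtain ⟨T, hT⟩ := (mem_P1 h0).1 hO
  have hch := isCh_CT hx (fracEq_CT hx hX) T
  rw [hch.lat_eq hT, det_yT h0]
  obtain ⟨w, hw, hwe⟩ := p1_prod h0 hT
  have hM : ∏ l, (MP x h0 l O : L) ^ 2 ≠ 0 :=
    Finset.prod_ne_zero_iff.2 fun l _ => pow_ne_zero _ (Units.ne_zero _)
  obtain ⟨δ, hδ⟩ : ∃ δ : L, δ = (Matrix.of fun i l => D i (x l)).det := ⟨_, rfl⟩
  obtain ⟨N, hN⟩ : ∃ N : L, N = ∏ l, (MP x h0 l O : L) ^ 2 := ⟨_, rfl⟩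
  rw [hwe, ← hN, ← hδ]
  rw [← hN] at hM
  rw [← hδ] at hD
  constructor
  · rintro ⟨c, hc, rfl⟩
    have h1 : c * (δ * (w * N)) / (δ * N) = c * w := by
      field_simp
    rw [h1]
    exact O.mul_mem hc hw.2.1
  · intro h
    refine ⟨f / (δ * N) * w⁻¹, O.mul_mem h hw.2.2, ?_⟩
    have hw0 := hw.1
    field_simp

/-- PROOF. `P1_lat`: with the order `e` of `w = δ ∏ MP ^ 2` along `O` (`PrimDiv.exists_ord`):
`f ∈ lat D O ↔ f * π ^ (- e) ∈ O`. -/
theorem P1_ordF (hx : AlgebraicIndependent ℂ x) (hX : IsProj (P1 x)) (h0 : ∀ i, x i ≠ 0)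
    (D : Fin n → Derivation ℂ L L) (hD : (Matrix.of fun i l => D i (x l)).det ≠ 0)
    {O : Subalgebra ℂ L} (hO : O ∈ P1 x) (hp : PrimDiv O) : ∃ e : ℤ, IsOrdF D O e ∧
      IsOrd O ((Matrix.of fun i l => D i (x l)).det * ∏ l, (MP x h0 l O : L) ^ 2) (-e) := by
  have hM : ∏ l, (MP x h0 l O : L) ^ 2 ≠ 0 :=
    Finset.prod_ne_zero_iff.2 fun l _ => pow_ne_zero _ (Units.ne_zero _)
  have hlat := P1_lat hx hX h0 D hD hO
  obtain ⟨W, hW⟩ : ∃ W : L, W = (Matrix.of fun i l => D i (x l)).det *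
    ∏ l, (MP x h0 l O : L) ^ 2 := ⟨_, rfl⟩
  have hW0 : W ≠ 0 := by
    rw [hW]
    exact mul_ne_zero hD hM
  rw [← hW] at hlat ⊢
  obtain ⟨e, he⟩ := hp.exists_ord hW0
  refine ⟨-e, ?_, by rwa [neg_neg]⟩
  obtain ⟨π, hπ, hu⟩ := he
  have hπe : π ^ e ≠ 0 := zpow_ne_zero e hπ.ne_zero
  refine ⟨π, hπ, fun f => ?_⟩
  rw [hlat, zpow_neg]
  constructor
  · intro h
    have h1 : f * (π ^ e)⁻¹ = f / W * (W / π ^ e) := by
      field_simp
    rw [h1]
    exact O.mul_mem h hu.2.1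
  · intro h
    have h1 : f / W = f * (π ^ e)⁻¹ * (W / π ^ e)⁻¹ := by
      field_simp
    rw [h1]
    exact O.mul_mem h hu.2.2

/-- **the decomposition of weight `2 n` on `(ℙ^1)^n`**

PROOF. `a i = 2`, `M i = MP i`. `RLin` with `s = 1`, `b = 1`, `u = δ = det (D i (x j))` (not zero by
`frame_det_ne`; `x` is a transcendence basis: `(isCh_CT ..).tb` for `T = ∅`). At a prime divisor
`O ∈ X`: `P1_ordF` gives `e`, `hX.can` gives `IsOrd O (κ O) (m e)`, and
`-e = f 0 + 2 ∑ e i` by `IsOrd.mul`, `IsOrd.prod`, `IsOrd.unique`. -/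
theorem exists_dec_of_P1 {X : Set (Subalgebra ℂ L)} {D : Fin n → Derivation ℂ L L} {m : ℕ}
    {κ : Subalgebra ℂ L → Lˣ} (hX : KltFano X D m κ) (h : IsP1n X n) :
    ∃ M : Fin n → Subalgebra ℂ L → Lˣ, Dec X m κ (fun _ => (2 : ℝ)) M := by
  obtain ⟨x, hx, hXx⟩ := h
  have hXe : X = P1 x := hXx
  subst hXe
  have h0 : ∀ i, x i ≠ 0 := fun i => hx.ne_zero i
  have hP := hX.proj
  have hy0 : yT x ∅ = x := by
    funext i
    unfold yT
    exact if_neg (Finset.notMem_empty i)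
  have htb := (isCh_CT hx (fracEq_CT hx hP) ∅).tb
  rw [hy0] at htb
  have hD := frame_det_ne htb hX.frame
  obtain ⟨δ, hδ⟩ : ∃ δ : L, δ = (Matrix.of fun i l => D i (x l)).det := ⟨_, rfl⟩
  have hδ0 : δ ≠ 0 := by
    rw [hδ]
    exact hD
  refine ⟨MP x h0, fun _ => two_pos, MP_car h0, fun i => ⟨0, fun m _ => MP_free h0 i m⟩,
    fun i => MP_ne hx hP h0 i, 1, fun _ => 1, fun _ => Units.mk0 δ hδ0, ?_⟩
  intro O hO hp c e f hc he hf
  obtain ⟨e', h1, h2⟩ := P1_ordF hx hP h0 D hD hO hp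
  have h3 := (hX.can.2 O hO hp e' h1).unique hp hc
  have h4 : IsOrd O (∏ l, (MP x h0 l O : L) ^ 2) (∑ l, (2 : ℤ) * e l) :=
    IsOrd.prod hp _ fun l _ => by
      have h5 := (he l).zpow hp 2
      rwa [show ((MP x h0 l O : L)) ^ (2 : ℤ) = (MP x h0 l O : L) ^ 2 from zpow_natCast _ 2] at h5
  have h5 : IsOrd O ((Matrix.of fun i l => D i (x l)).det * ∏ l, (MP x h0 l O : L) ^ 2)
      (f 0 + ∑ l, (2 : ℤ) * e l) := by
    rw [← hδ]
    exact (hf 0).mul hp h4
  have h6 := h2.unique hp h5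
  have hm : (m : ℝ) ≠ 0 := by
    have := hX.pos
    positivity
  have h7 : ((-e' : ℤ) : ℝ) = ((f 0 + ∑ l, (2 : ℤ) * e l : ℤ) : ℝ) := by rw [h6]
  push_cast at h7
  rw [← h3]
  push_cast
  rw [neg_mul_eq_mul_neg, mul_div_cancel_left₀ _ hm, h7, Fin.sum_univ_one, one_mul]
  ring

end Pool.Agent.KM
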