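import Pool.Agent.Lib.MP_732f67_ag.S.A
import Pool.Agent.Lib.MP_732f67_ag.G.Nbh2

/-!
`(ℙ^1)^n`: projective, normal, the very ample linear system.
-/

namespace Pool.Agent.KM

variable {L : Type} [Field L] [Algebra ℂ L] {n : ℕ} {x : Fin n → L}

/-- the fractions of elements of a subalgebra -/
theorem sBA_frac {A : Subalgebra ℂ L} {S : Set L}
    (hS : ∀ a ∈ S, ∃ b c : A, (c : L) ≠ 0 ∧ a = b / c) :
    ∀ a ∈ Algebra.adjoin ℂ S, ∃ b c : A, (c : L) ≠ 0 ∧ a = b / c := by
  intro a ha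
  induction ha using Algebra.adjoin_induction with
  | mem z hz => exact hS z hz
  | algebraMap r =>
    refine ⟨algebraMap ℂ A r, 1, ?_, ?_⟩
    · rw [OneMemClass.coe_one]
      exact one_ne_zero
    · rw [OneMemClass.coe_one, div_one]
      rfl
  | add z w _ _ hz hw =>
    obtain ⟨b, c, hc, rfl⟩ := hz
    obtain ⟨d, e, he, rfl⟩ := hw
    refine ⟨b * e + c * d, c * e, ?_, ?_⟩
    · rw [MulMemClass.coe_mul]
      exact mul_ne_zero hc he
    · rw [div_add_div _ _ hc he]
      simp only [AddMemClass.coe_add, MulMemClass.coe_mul]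
  | mul z w _ _ hz hw =>
    obtain ⟨b, c, hc, rfl⟩ := hz
    obtain ⟨d, e, he, rfl⟩ := hw
    refine ⟨b * d, c * e, ?_, ?_⟩
    · rw [MulMemClass.coe_mul]
      exact mul_ne_zero hc he
    · rw [MulMemClass.coe_mul, MulMemClass.coe_mul, div_mul_div_comm]

theorem sBA_fracEq {A : Subalgebra ℂ L} {S : Set L}
    (hS : ∀ a ∈ S, ∃ b c : A, (c : L) ≠ 0 ∧ a = b / c) (h : FracEq (Algebra.adjoin ℂ S)) :
    FracEq A := by
  intro a
  obtain ⟨p, q, hq, rfl⟩ := h a
  obtain ⟨b, c, hc, hp⟩ := sBA_frac hS p p.2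
  obtain ⟨d, e, he, hq'⟩ := sBA_frac hS q q.2
  have hd : (d : L) ≠ 0 := by
    intro h0
    apply hq
    rw [hq', h0, zero_div]
  refine ⟨b * e, c * d, ?_, ?_⟩
  · rw [MulMemClass.coe_mul]
    exact mul_ne_zero hc hd
  · rw [hp, hq', MulMemClass.coe_mul, MulMemClass.coe_mul, div_div_div_eq]

theorem sBA_one_mem (x : Fin n → L) :
    (1 : L) ∈ Submodule.span ℂ (Set.range fun s : Finset (Fin n) => ∏ i ∈ s, x i) :=
  Submodule.subset_span ⟨∅, Finset.prod_empty⟩

theorem sBA_x_mem (x : Fin n → L) (i : Fin n) :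
    x i ∈ Submodule.span ℂ (Set.range fun s : Finset (Fin n) => ∏ i ∈ s, x i) :=
  Submodule.subset_span ⟨{i}, Finset.prod_singleton _ _⟩

theorem sBA_proj (hf : FracEq (CT x ∅)) : IsProj (P1 x) := by
  refine ⟨_, Module.Finite.span_of_finite ℂ (Set.finite_range _), ?_, ?_, rfl⟩
  · intro h
    have h1 := sBA_one_mem x
    rw [h, Submodule.mem_bot] at h1
    exact one_ne_zero h1
  · intro v _ hv0
    refine sBA_fracEq (S := Set.range (yT x ∅)) ?_ hf
    rintro _ ⟨i, rfl⟩
    have h1 : yT x ∅ i = x i := if_neg (Finset.notMem_empty i)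
    refine ⟨⟨x i / v, Algebra.subset_adjoin ⟨x i, sBA_x_mem x i, rfl⟩⟩,
      ⟨1 / v, Algebra.subset_adjoin ⟨1, sBA_one_mem x, rfl⟩⟩, ?_, ?_⟩
    · exact div_ne_zero one_ne_zero hv0
    · rw [h1]
      change x i = x i / v / (1 / v)
      rw [div_div_div_cancel_right₀ hv0, div_one]

theorem sBA_normal (hx : AlgebraicIndependent ℂ x) (hf : FracEq (CT x ∅)) : Normal (P1 x) := by
  intro O hO w hw
  obtain ⟨T, hT⟩ := (mem_P1 fun i => hx.ne_zero i).1 hO
  exact nbh2_closed hT le_rfl hT.le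
    (isCh_CT hx (fun T => fracEq_CT hx (sBA_proj hf) T) T).closed hw

/-- one factor -/
theorem sBA_bf (h0 : ∀ i, x i ≠ 0) (i : Fin n) :
    BF (P1 x) (MP x h0 i) (Submodule.span ℂ {1, x i}) := by
  refine ⟨Module.Finite.span_of_finite ℂ (Set.toFinite _), ?_, ?_⟩
  · rw [Submodule.span_le]
    rintro a (rfl | ha) O hO
    · rw [one_mul]
      exact (MP_mem h0 hO i).1
    · rw [Set.mem_singleton_iff] at ha
      rw [ha]
      exact (MP_mem h0 hO i).2
  · intro O hO
    by_cases h : x i ∈ O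
    · refine ⟨1, Submodule.subset_span (Or.inl rfl), ?_⟩
      have h1 : MP x h0 i O = 1 := by
        unfold MP
        exact if_pos h
      rw [h1, Units.val_one, mul_one]
      exact Un.one O
    · refine ⟨x i, Submodule.subset_span (Or.inr rfl), ?_⟩
      have h1 : (MP x h0 i O : L) = (x i)⁻¹ := by
        unfold MP
        rw [if_neg h, Units.val_inv_eq_inv_val, Units.val_mk0]
      rw [h1, mul_inv_cancel₀ (h0 i)]
      exact Un.one O

theorem sBA_bf_prod (h0 : ∀ i, x i ≠ 0) (s : Finset (Fin n)) :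
    BF (P1 x) (∏ i ∈ s, MP x h0 i) (∏ i ∈ s, Submodule.span ℂ ({1, x i} : Set L)) := by
  classical
  induction s using Finset.induction_on with
  | empty =>
    rw [Finset.prod_empty, Finset.prod_empty]
    have h1 : BF (P1 x) (1 : Subalgebra ℂ L → Lˣ) (1 : Submodule ℂ L) := by
      refine ⟨?_, fun f hf O hO => ?_, fun O hO => ⟨1, Submodule.one_le.1 le_rfl, ?_⟩⟩
      · refine Module.Finite.iff_fg.2 ?_
        rw [Submodule.one_eq_span]
        exact Submodule.fg_span_singleton 1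
      · obtain ⟨c, rfl⟩ := Submodule.mem_one.1 hf
        rw [Pi.one_apply, Units.val_one, mul_one]
        exact O.algebraMap_mem c
      · rw [Pi.one_apply, Units.val_one, mul_one]
        exact Un.one O
    exact h1
  | insert i s hi ih =>
    rw [Finset.prod_insert hi, Finset.prod_insert hi]
    exact (sBA_bf h0 i).mul ih

theorem sBA_va (h0 : ∀ i, x i ≠ 0) :
    VA (P1 x) (∏ i, MP x h0 i)
      (Submodule.span ℂ (Set.range fun s : Finset (Fin n) => ∏ i ∈ s, x i)) := by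
  have h1 := sBA_bf_prod h0 Finset.univ
  have h2 : (∏ i : Fin n, Submodule.span ℂ ({1, x i} : Set L)) =
      Submodule.span ℂ (Set.range fun s : Finset (Fin n) => ∏ i ∈ s, x i) := by
    rw [Submodule.prod_span, eqa_prod_pair]
  rw [h2] at h1
  exact ⟨h1, rfl⟩

end Pool.Agent.KM
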