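import Pool.Agent.Lib.MP_732f67_ag.G.EtA
import Pool.Agent.Lib.MP_732f67_ag.G.Pt

/-!
The local rings of an affine space are smooth.
-/

namespace Pool.Agent.KM

open scoped KaehlerDifferential

variable {L : Type} [Field L] [Algebra ℂ L] {n : ℕ}

/-- the local rings of an affine space: smoothness, the differentials of the coordinates -/
theorem smooth_of_loc {y : Fin n → L} (hy : AlgebraicIndependent ℂ y) {O : Subalgebra ℂ L}
    (h : LocAt (Algebra.adjoin ℂ (Set.range y)) O) :
    Algebra.FormallySmooth ℂ O ∧ ∃ z : Fin n → O, (∀ i, (z i : L) = y i) ∧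
      ∃ b : Module.Basis (Fin n) O Ω[O⁄ℂ], ∀ i, b i = KaehlerDifferential.D ℂ O (z i) := by
  have hle := h.le
  obtain ⟨P, hP, h⟩ := h
  let A := Algebra.adjoin ℂ (Set.range y)
  let z : Fin n → O := fun i => ⟨y i, hle (Algebra.subset_adjoin ⟨i, rfl⟩)⟩
  let _ : Algebra A O := (Subalgebra.inclusion hle).toRingHom.toAlgebra
  have hb0 : ∀ b : A, b ∉ P → (b : L) ≠ 0 := fun b hb h0 => hb (by
    have : b = 0 := Subtype.ext h0
    rw [this]
    exact P.zero_mem)
  have hloc : IsLocalization P.primeCompl O := by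
    refine ⟨?_, ?_, ?_⟩
    · rintro ⟨b, hb⟩
      rw [pt_isUnit_iff]
      refine ⟨hb0 b hb, ?_⟩
      rw [h]
      exact ⟨1, b, hb, by
        change (b : L)⁻¹ = (1 : L) / b
        rw [one_div]⟩
    · intro x
      obtain ⟨a, b, hb, hx⟩ := (h x).1 x.2
      refine ⟨(a, ⟨b, hb⟩), Subtype.ext ?_⟩
      change (x : L) * b = a
      rw [hx, div_mul_cancel₀ _ (hb0 b hb)]
    · intro x y hxy
      refine ⟨1, ?_⟩
      have h1 : x = y := Subtype.ext (by
        have := congrArg (fun z : O => (z : L)) hxy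
        exact this)
      rw [h1]
  let _ : Algebra (MvPolynomial (Fin n) ℂ) O :=
    (MvPolynomial.aeval z : MvPolynomial (Fin n) ℂ →ₐ[ℂ] O).toRingHom.toAlgebra
  have : IsScalarTower ℂ (MvPolynomial (Fin n) ℂ) O :=
    IsScalarTower.of_algebraMap_eq' (MvPolynomial.aeval z).comp_algebraMap.symm
  let _ : Algebra (MvPolynomial (Fin n) ℂ) A := hy.aevalEquiv.toRingHom.toAlgebra
  have : IsScalarTower (MvPolynomial (Fin n) ℂ) A O := by
    refine IsScalarTower.of_algebraMap_eq fun p => Subtype.ext ?_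
    have h1 : ((MvPolynomial.aeval z p : O) : L) = MvPolynomial.aeval y p :=
      (MvPolynomial.aeval_algebraMap_apply L z p).symm
    exact h1.trans (hy.algebraMap_aevalEquiv p).symm
  have : Algebra.FormallyEtale (MvPolynomial (Fin n) ℂ) A :=
    Algebra.FormallyEtale.of_equiv (A := MvPolynomial (Fin n) ℂ)
      (AlgEquiv.ofRingEquiv (f := hy.aevalEquiv.toRingEquiv) fun p => rfl)
  have : Algebra.FormallyEtale A O := .of_isLocalization P.primeCompl
  have : Algebra.FormallyEtale (MvPolynomial (Fin n) ℂ) O :=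
    Algebra.FormallyEtale.comp (MvPolynomial (Fin n) ℂ) A O
  refine ⟨Algebra.FormallySmooth.comp ℂ (MvPolynomial (Fin n) ℂ) O, z, fun i => rfl,
    ((KaehlerDifferential.mvPolynomialBasis ℂ (Fin n)).baseChange O).map
      (KaehlerDifferential.tensorKaehlerEquivOfFormallyEtale ℂ (MvPolynomial (Fin n) ℂ) O),
    fun i => ?_⟩
  simp only [Module.Basis.map_apply, Module.Basis.baseChange_apply,
    KaehlerDifferential.mvPolynomialBasis_apply,
    KaehlerDifferential.tensorKaehlerEquivOfFormallyEtale_apply,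
    KaehlerDifferential.mapBaseChange_tmul, one_smul, KaehlerDifferential.map_D]
  congr 1
  exact MvPolynomial.aeval_X z i

end Pool.Agent.KM
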