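import Pool.Agent.Lib.MP_732f67_ag.S.A
import Pool.Agent.Lib.MP_732f67_ag.S.BA
import Pool.Agent.Lib.MP_732f67_ag.S.Sm

/-!
`(ℙ^1)^n` is a klt Fano variety in the sense of the definitions, and its own log resolution.
-/

namespace Pool.Agent.KM

variable {L : Type} [Field L] [Algebra ℂ L] {n : ℕ} {x : Fin n → L}

/-- PROOF. `V = span ..` is finite dimensional and not zero; for `v ∈ V`, `v ≠ 0` the field of fractions
of `cht V v` contains `1 / v`, `x i / v`, so all `x i`. -/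
theorem P1_proj (hf : FracEq (CT x ∅)) : IsProj (P1 x) := sBA_proj hf

/-- PROOF. `mem_P1`; the charts are integrally closed (`isCh_CT`, `IsCh.closed`) and so are their
localizations (`nbh2` has this step for smooth charts). -/
theorem P1_normal (hx : AlgebraicIndependent ℂ x) (hf : FracEq (CT x ∅)) : Normal (P1 x) :=
  sBA_normal hx hf

/-- PROOF. `O` is a localization of `CT x T`, which is a polynomial ring. -/
theorem P1_smooth (hx : AlgebraicIndependent ℂ x) (hf : FracEq (CT x ∅)) {O : Subalgebra ℂ L}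
    (hO : O ∈ P1 x) : Algebra.FormallySmooth ℂ O := by
  obtain ⟨T, hT⟩ := (mem_P1 fun i => hx.ne_zero i).1 hO
  exact (smooth_of_loc (isCh_CT hx (fracEq_CT hx (P1_proj hf)) T).tb.1 hT).1

/-- PROOF. `KaehlerDifferential.mvPolynomialBasis` for the polynomial ring `CT x T`, and the
differentials of a localization (`Module.Basis.ofIsLocalizedModule`). -/
theorem P1_basis (hx : AlgebraicIndependent ℂ x) (hf : FracEq (CT x ∅)) {O : Subalgebra ℂ L}
    (hO : O ∈ P1 x) : ∃ y : Fin n → O, ∃ b : Module.Basis (Fin n) O Ω[O⁄ℂ],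
      ∀ i, b i = KaehlerDifferential.D ℂ O (y i) := by
  obtain ⟨T, hT⟩ := (mem_P1 fun i => hx.ne_zero i).1 hO
  obtain ⟨-, y, -, b, hb⟩ :=
    smooth_of_loc (isCh_CT hx (fracEq_CT hx (P1_proj hf)) T).tb.1 hT
  exact ⟨y, b, hb⟩

/-- the system of the sections of `∑ MP i` is very ample.

PROOF. `BF (P1 x) (MP i) (span {1, x i})` for every `i`, their product (`BF.mul`, induction) with
`∏ span {1, x i} = span ..` and `P1 x = Pts ..` by definition; `VA.pow`. -/
theorem P1_va (hx : AlgebraicIndependent ℂ x) (hf : FracEq (CT x ∅)) (h0 : ∀ i, x i ≠ 0) :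
    VA (P1 x) (∏ i, MP x h0 i)
      (Submodule.span ℂ (Set.range fun s : Finset (Fin n) => ∏ i ∈ s, x i)) :=
  sBA_va h0

theorem sb_yT (x : Fin n → L) : yT x ∅ = x := by
  funext i
  rw [yT, if_neg (Finset.notMem_empty i)]

theorem sb_car (h0 : ∀ i, x i ≠ 0) : IsCar (P1 x) (∏ i, MP x h0 i) := by
  classical
  refine Finset.prod_induction (MP x h0) (IsCar (P1 x)) (fun _ _ h h' => pol_car_mul h h')
    (pol_car_one _) fun i _ => MP_car h0 i

/-- regular forms stay regular -/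
theorem sb_lat (D : Fin n → Derivation ℂ L L) {O' O : Subalgebra ℂ L} (h : O' ≤ O) {f : L}
    (hf : f ∈ lat D O') : f ∈ lat D O := by
  unfold lat at hf
  induction hf using Submodule.span_induction with
  | mem z hz =>
    obtain ⟨w, rfl⟩ := hz
    exact Submodule.subset_span ⟨fun j => ⟨w j, h (w j).2⟩, rfl⟩
  | zero => exact Submodule.zero_mem _
  | add a b _ _ ha hb => exact Submodule.add_mem _ ha hb
  | smul r a _ ha => exact Submodule.smul_mem (lat D O) (⟨r, h r.2⟩ : O) ha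

/-- **`(ℙ^1)^n` is klt Fano**

PROOF. `D` dual to `x` (`exists_der`), so `δ = 1`; `κ O = ∏ (MP i O) ^ (-2)`. `IsCan`: `P1_ordF` and
`IsOrdF.unique`. `Klt`: if `O` dominates `O' ∈ X`, then `w = ∏ MP i O' ^ 2 ∈ lat D O' ≤ lat D O` (`P1_lat`; the
generators of `lat` are monotone), so `w π ^ e ∈ O`, and `κ O' = w⁻¹` has order `l ≤ e`. `Ample`: `P1_va`,
`VA.pow` with exponent `2`, `VA.pts_of_le`. `dim`: `(isCh_CT ..).tb`. -/
theorem P1_kltFano (hx : AlgebraicIndependent ℂ x) (hf : FracEq (CT x ∅)) :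
    ∃ (D : Fin n → Derivation ℂ L L) (κ : Subalgebra ℂ L → Lˣ), KltFano (P1 x) D 1 κ := by
  have h0 : ∀ i, x i ≠ 0 := fun i => hx.ne_zero i
  have hX : IsProj (P1 x) := P1_proj hf
  have htb : IsTranscendenceBasis ℂ x := by
    have h1 := (isCh_CT hx (fracEq_CT hx hX) ∅).tb
    rwa [sb_yT] at h1
  obtain ⟨D, hD⟩ := exists_der htb
  have hδ : (Matrix.of fun i l => D i (x l)).det = 1 := by
    have h1 : (Matrix.of fun i l => D i (x l)) = (1 : Matrix (Fin n) (Fin n) L) := by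
      ext i l
      rw [Matrix.of_apply, hD, Matrix.one_apply]
    rw [h1, Matrix.det_one]
  have hδ0 : (Matrix.of fun i l => D i (x l)).det ≠ 0 := by
    rw [hδ]
    exact one_ne_zero
  have hw : ∀ O, (((∏ i, MP x h0 i) ^ 2) O : L) = ∏ l, (MP x h0 l O : L) ^ 2 := by
    intro O
    rw [Pi.pow_apply, Finset.prod_apply, Units.val_pow_eq_pow_val, Units.coe_prod,
      Finset.prod_pow]
  have hκ : ∀ O, ((((∏ i, MP x h0 i) ^ 2)⁻¹ : Subalgebra ℂ L → Lˣ) O : L) =
      (∏ l, (MP x h0 l O : L) ^ 2)⁻¹ := by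
    intro O
    rw [Pi.inv_apply, Units.val_inv_eq_inv_val, hw]
  have hlat : ∀ O ∈ P1 x, ∀ f, f ∈ lat D O ↔ f / ∏ l, (MP x h0 l O : L) ^ 2 ∈ O := by
    intro O hO f
    rw [P1_lat hx hX h0 D hδ0 hO f, hδ, one_mul]
  have hva := (P1_va hx hf h0).pow hX (d := 2) (by norm_num)
  refine ⟨D, ((∏ i, MP x h0 i) ^ 2)⁻¹, hX, P1_normal hx hf, ?_, ?_, le_rfl, ⟨?_, ?_⟩, ?_, ?_⟩
  · rw [← htb.cardinalMk_eq_trdeg, Cardinal.mk_fin]
  · rw [Fintype.linearIndependent_iff]
    intro v hv j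
    have h1 : (∑ i, v i • D i) (x j) = 0 := by
      rw [hv]
      rfl
    rw [der_sum_apply, Finset.sum_eq_single j] at h1
    · rw [Derivation.smul_apply, hD, if_pos rfl, smul_eq_mul, mul_one] at h1
      exact h1
    · intro i _ hij
      rw [Derivation.smul_apply, hD, if_neg hij, smul_zero]
    · intro h
      exact absurd (Finset.mem_univ j) h
  · exact pol_car_inv (pol_car_pow (sb_car h0) 2)
  · intro O hO hp e he
    obtain ⟨e', h1, h2⟩ := P1_ordF hx hX h0 D hδ0 hO hp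
    rw [he.unique hp h1, hκ]
    rw [hδ, one_mul] at h2
    have h3 := h2.inv hp
    rw [neg_neg] at h3
    rw [Nat.cast_one, one_mul]
    exact h3
  · intro O hp O' hO' hd e l he hl
    obtain ⟨π, hπ, h1⟩ := he
    have hw0 : ∏ l, (MP x h0 l O' : L) ^ 2 ≠ 0 :=
      Finset.prod_ne_zero_iff.2 fun l _ => pow_ne_zero 2 (Units.ne_zero _)
    have h2 : ∏ l, (MP x h0 l O' : L) ^ 2 ∈ lat D O :=
      sb_lat D hd.1 ((hlat O' hO' _).2 (by
        rw [div_self hw0]
        exact O'.one_mem))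
    have h3 := (h1 _).1 h2
    rw [hκ] at hl
    have h4 := hl.inv hp
    rw [inv_inv] at h4
    have h5 : IsOrd O (π ^ e) e := (isOrd_iff hπ).2 (by
      rw [div_self (zpow_ne_zero e hπ.ne_zero)]
      exact Un.one O)
    have h6 := (IsOrd.mem_iff hp (h4.mul hp h5)).1 h3
    rw [Nat.cast_one, one_mul]
    omega
  · have h1 : ((((∏ i, MP x h0 i) ^ 2)⁻¹)⁻¹ ^ 1 : Subalgebra ℂ L → Lˣ) =
        (∏ i, MP x h0 i) ^ 2 := by
      rw [pow_one, inv_inv]
    refine ⟨1, le_rfl, ?_, ?_⟩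
    · rw [h1]
      intro O hO
      obtain ⟨f, hf1, hf2⟩ := hva.gen O hO
      exact ⟨f, hva.sec hf1, hf2⟩
    · rw [h1]
      exact VA.pts_of_le hX hva hva.sec le_rfl

/-- PROOF. No exceptional divisors; `A = B = ∏ MP i`, `Θ = 1`. -/
theorem P1_logRes (hx : AlgebraicIndependent ℂ x) (hf : FracEq (CT x ∅)) :
    LogRes n (P1 x) (P1 x) (fun i : Fin 0 => i.elim0) (fun i : Fin 0 => i.elim0) := by
  have h0 : ∀ i, x i ≠ 0 := fun i => hx.ne_zero i
  have hX : IsProj (P1 x) := P1_proj hf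
  have hva := P1_va hx hf h0
  refine ⟨hX, fun O hO => ⟨O, hO, Dom.refl O⟩, fun O hO => P1_smooth hx hf hO, fun O => ?_,
    fun i => i.elim0, fun i => i.elim0, fun i => i.elim0, fun O hO => ?_,
    ∏ i, MP x h0 i, ∏ i, MP x h0 i, 1, sb_car h0, fun O hO O' hO' hd => ?_, pol_car_one _,
    fun O hO hp e he => ?_, 1, le_rfl, ?_, ?_⟩
  · constructor
    · rintro ⟨i, -⟩
      exact i.elim0
    · rintro ⟨h1, -, h2⟩
      exact absurd h1 h2
  · obtain ⟨y, hy⟩ := P1_basis hx hf hO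
    exact ⟨y, hy, fun i => i.elim0⟩
  · rw [hX.eq_of_dom hO' hO hd (Dom.refl O), div_self', Units.val_one]
    exact Un.one O
  · rw [Pi.one_apply, Units.val_one] at he
    have h1 : e = 0 := he.unique hp ((isOrd_zero_iff hp).2 (Un.one O))
    exact ⟨h1.ge, fun _ => hO, fun _ => h1⟩
  · rw [pow_one, div_one]
    intro O hO
    obtain ⟨f, hf1, hf2⟩ := hva.gen O hO
    exact ⟨f, hva.sec hf1, hf2⟩
  · rw [pow_one, div_one]
    exact VA.pts_of_le hX hva hva.sec le_rfl

/-- **the hypotheses are satisfiable**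

PROOF. `L = FractionRing (MvPolynomial (Fin n) ℂ)`. -/
theorem exists_P1 (n : ℕ) : ∃ (L : Type) (_ : Field L) (_ : Algebra ℂ L)
    (X : Set (Subalgebra ℂ L)) (D : Fin n → Derivation ℂ L L) (κ : Subalgebra ℂ L → Lˣ),
    KltFano X D 1 κ ∧ IsP1n X n ∧
      LogRes n X X (fun i : Fin 0 => i.elim0) (fun i : Fin 0 => i.elim0) := by
  let L := FractionRing (MvPolynomial (Fin n) ℂ)
  let x : Fin n → L := fun i => algebraMap (MvPolynomial (Fin n) ℂ) L (MvPolynomial.X i)
  have hx : AlgebraicIndependent ℂ x :=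
    (MvPolynomial.algebraicIndependent_X (Fin n) ℂ).map'
      (f := IsScalarTower.toAlgHom ℂ (MvPolynomial (Fin n) ℂ) L)
      (IsFractionRing.injective (MvPolynomial (Fin n) ℂ) L)
  have hmem : ∀ p : MvPolynomial (Fin n) ℂ, algebraMap (MvPolynomial (Fin n) ℂ) L p ∈
      CT x ∅ := by
    intro p
    have h1 : algebraMap (MvPolynomial (Fin n) ℂ) L p = MvPolynomial.aeval x p := by
      have h2 : (IsScalarTower.toAlgHom ℂ (MvPolynomial (Fin n) ℂ) L) = MvPolynomial.aeval x := by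
        refine MvPolynomial.algHom_ext fun i => ?_
        rw [MvPolynomial.aeval_X]
        rfl
      exact congrArg (fun f : MvPolynomial (Fin n) ℂ →ₐ[ℂ] L => f p) h2
    rw [h1, CT, sb_yT, Algebra.adjoin_range_eq_range_aeval]
    exact ⟨p, rfl⟩
  have hf : FracEq (CT x ∅) := by
    intro z
    obtain ⟨a, b, hb, rfl⟩ := IsFractionRing.div_surjective (A := MvPolynomial (Fin n) ℂ) z
    exact ⟨⟨_, hmem a⟩, ⟨_, hmem b⟩, IsFractionRing.to_map_ne_zero_of_mem_nonZeroDivisors hb, rfl⟩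
  obtain ⟨D, κ, h⟩ := P1_kltFano hx hf
  exact ⟨L, inferInstance, inferInstance, P1 x, D, κ, h, ⟨x, hx, rfl⟩, P1_logRes hx hf⟩

end Pool.Agent.KM
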